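import Pool.Agent.Work.MP_db9399_oc.Interface

/-!
# MP_db9399, block HRD of OCB4 (helper74)

The number of hard colours of a cluster, by double counting.
-/

set_option autoImplicit false

namespace Pool.Agent.Work.MP_db9399_oc

open Finset Classical
open Pool.Agent.Work.MP_db9399_all (nb)
open Pool.Agent.Work.MP_db9399_lt (us)
open Pool.Agent.Work.MP_db9399_da hiding qV
open Pool.Agent.Work.MP_db9399_xf
open Pool.Agent.Work.MP_db9399_x4

universe u

section hrd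

variable {V : Type u} [Fintype V] {N J : ℕ}

/-- the total need of a side -/
theorem hrd_tot {k : Con} {c' : ℝ} {D : OD V N J} (H : Hyp k c' D) (n : Fin N)
    (hn : D.X.P.ty n = Ty.B) (β : Bool) :
    ∑ b ∈ range (D.d + 2), (D.nd n β b : ℝ) ≤ 5 / 6 * (sV D.X.P n β).card := by
  have h := H.rg.totB n hn β
  push_cast at h
  exact h

theorem hrd_side {D : OD V N J} (n : Fin N) :
    ((sV D.X.P n false).card : ℝ) + (sV D.X.P n true).card = (pV D.X.P n).card := by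
  have h1 : sV D.X.P n false = (pV D.X.P n).filter (fun v => D.X.P.sd v = false) := by
    ext v
    simp only [sV, pV, mem_filter, mem_univ, true_and]
    tauto
  have h2 : sV D.X.P n true = (pV D.X.P n).filter (fun v => ¬ D.X.P.sd v = false) := by
    ext v
    simp only [sV, pV, mem_filter, mem_univ, true_and, Bool.not_eq_false]
    tauto
  rw [h1, h2]
  have h3 := card_filter_add_card_filter_not (s := pV D.X.P n) (fun v => D.X.P.sd v = false)
  exact_mod_cast h3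

/-- the pieces of the cluster `j` have at most `C d` vertices -/
theorem hrd_clu {k : Con} {c' : ℝ} {D : OD V N J} (H : Hyp k c' D) (j : ℕ)
    (B : Finset (Fin N)) (hB : ∀ n ∈ B, D.inC n j) :
    ∑ n ∈ B, ((pV D.X.P n).card : ℝ) ≤ k.C * D.d := by
  have hd : (B : Set (Fin N)).PairwiseDisjoint (fun n => pV D.X.P n) := by
    intro a _ b _ hab
    rw [Function.onFun, Finset.disjoint_left]
    intro v hva hvb
    simp only [pV, mem_filter, mem_univ, true_and] at hva hvb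
    exact hab (hva.2.symm.trans hvb.2)
  have h1 : (B.biUnion (fun n => pV D.X.P n)).card = ∑ n ∈ B, (pV D.X.P n).card :=
    card_biUnion hd
  have h2 : B.biUnion (fun n => pV D.X.P n) ⊆ univ.filter (fun v => D.X.cq v = some j) := by
    intro v hv
    rw [mem_biUnion] at hv
    obtain ⟨n, hn, hv⟩ := hv
    obtain ⟨w, hw, hwj⟩ := hB n hn
    rw [mem_filter]
    refine ⟨mem_univ _, ?_⟩
    simp only [pV, mem_filter, mem_univ, true_and] at hv hw
    rw [← hwj]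
    exact H.pc.clp v w hv.1 hw.1 (hv.2.trans hw.2.symm)
  have h3 := card_le_card h2
  have h4 := H.pc.clc j
  have h5 : ((∑ n ∈ B, (pV D.X.P n).card : ℕ) : ℝ) ≤
      ((univ.filter (fun v => D.X.cq v = some j)).card : ℝ) := by
    rw [← h1]
    exact Nat.cast_le.2 h3
  push_cast at h5
  exact h5.trans h4

/-- first kind of hard colours -/
theorem hrd_A {k : Con} {c' : ℝ} {D : OD V N J} (H : Hyp k c' D) (j : ℕ) (A : Finset ℕ)
    (hA : A ⊆ range (D.d + 2))
    (h : ∀ b ∈ A, ∃ n β, D.X.P.ty n = Ty.B ∧ D.inC n j ∧ D.X1 < D.nd n β b) :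
    (A.card : ℝ) * D.X1 ≤ 5 / 6 * (k.C * D.d) := by
  set B : Finset (Fin N) := univ.filter (fun n => D.X.P.ty n = Ty.B ∧ D.inC n j) with hBd
  have h1 : (A.card : ℝ) * D.X1 ≤
      ∑ b ∈ A, ∑ n ∈ B, ((D.nd n false b : ℝ) + D.nd n true b) := by
    rw [← nsmul_eq_mul, ← sum_const]
    refine sum_le_sum fun b hb => ?_
    obtain ⟨n, β, h1, h2, h3⟩ := h b hb
    have h4 : n ∈ B := by
      rw [hBd, mem_filter]
      exact ⟨mem_univ _, h1, h2⟩
    have h5 : (D.X1 : ℝ) ≤ (D.nd n false b : ℝ) + D.nd n true b := by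
      have h6 : (D.X1 : ℝ) ≤ D.nd n β b := Nat.cast_le.2 h3.le
      have h7 : (0 : ℝ) ≤ D.nd n false b := Nat.cast_nonneg _
      have h8 : (0 : ℝ) ≤ D.nd n true b := Nat.cast_nonneg _
      cases β
      · linarith
      · linarith
    refine h5.trans ?_
    exact single_le_sum (f := fun n => (D.nd n false b : ℝ) + D.nd n true b)
      (fun m _ => by positivity) h4
  have h2 : ∑ b ∈ A, ∑ n ∈ B, ((D.nd n false b : ℝ) + D.nd n true b) ≤
      ∑ b ∈ range (D.d + 2), ∑ n ∈ B, ((D.nd n false b : ℝ) + D.nd n true b) :=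
    sum_le_sum_of_subset_of_nonneg hA (fun b _ _ => sum_nonneg fun n _ => by positivity)
  have h3 : ∑ b ∈ range (D.d + 2), ∑ n ∈ B, ((D.nd n false b : ℝ) + D.nd n true b) ≤
      ∑ n ∈ B, 5 / 6 * ((pV D.X.P n).card : ℝ) := by
    rw [sum_comm]
    refine sum_le_sum fun n hn => ?_
    have hn' : D.X.P.ty n = Ty.B := by
      rw [hBd, mem_filter] at hn
      exact hn.2.1
    rw [sum_add_distrib, ← hrd_side (D := D) n]
    have e1 := hrd_tot H n hn' false
    have e2 := hrd_tot H n hn' true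
    linarith
  have h4 : ∑ n ∈ B, 5 / 6 * ((pV D.X.P n).card : ℝ) ≤ 5 / 6 * (k.C * D.d) := by
    rw [← mul_sum]
    have := hrd_clu H j B (fun n hn => by
      rw [hBd, mem_filter] at hn
      exact hn.2.2)
    linarith
  linarith

theorem hx_nonneg (D : OD V N J) (n : Fin N) (b : ℕ) : 0 ≤ D.hx n b := by
  unfold OD.hx
  exact sum_nonneg fun v _ => sum_nonneg fun w _ => by positivity

/-- the sum of `hx n b` over the colours -/
theorem hrd_hx {k : Con} {c' : ℝ} {D : OD V N J} (H : Hyp k c' D) (n : Fin N) :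
    ∑ b ∈ range (D.d + 2), D.hx n b ≤ 5 / 6 * ((D.d : ℝ) ^ (-c') * (D.d : ℝ) ^ 2) := by
  unfold OD.hx
  rw [sum_comm]
  have h1 : ∀ v ∈ pV D.X.P n, ∑ b ∈ range (D.d + 2),
      ∑ w ∈ (nb D.G v).filter (fun w => InT D.X Ty.B w ∧ D.X.cq w ≠ D.X.cq v),
        (D.ndv w b : ℝ) / (sV D.X.P (D.X.P.pc w) (D.X.P.sd w)).card ≤
      5 / 6 * (((nb D.G v).filter (fun w => D.X.cq w ≠ D.X.cq v)).card : ℝ) := by
    intro v _
    rw [sum_comm]
    have h2 : ∀ w ∈ (nb D.G v).filter (fun w => InT D.X Ty.B w ∧ D.X.cq w ≠ D.X.cq v),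
        ∑ b ∈ range (D.d + 2), (D.ndv w b : ℝ) / (sV D.X.P (D.X.P.pc w) (D.X.P.sd w)).card ≤
          5 / 6 := by
      intro w hw
      rw [mem_filter] at hw
      have hB : D.X.P.ty (D.X.P.pc w) = Ty.B := hw.2.1.2
      rw [← sum_div]
      have h3 := hrd_tot H (D.X.P.pc w) hB (D.X.P.sd w)
      have h4 : (0 : ℝ) ≤ (sV D.X.P (D.X.P.pc w) (D.X.P.sd w)).card := Nat.cast_nonneg _
      exact div_le_of_le_mul₀ h4 (by norm_num) h3
    refine (sum_le_sum h2).trans ?_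
    rw [sum_const, nsmul_eq_mul, mul_comm]
    refine mul_le_mul_of_nonneg_left ?_ (by norm_num)
    refine Nat.cast_le.2 (card_le_card ?_)
    intro w hw
    rw [mem_filter] at hw ⊢
    exact ⟨hw.1, hw.2.2⟩
  refine (sum_le_sum h1).trans ?_
  rw [← mul_sum]
  refine mul_le_mul_of_nonneg_left ?_ (by norm_num)
  have h5 := H.pc.xs n
  push_cast at h5
  exact h5

/-- second kind of hard colours -/
theorem hrd_B {k : Con} {c' : ℝ} {D : OD V N J} (H : Hyp k c' D) (j : ℕ) (A : Finset ℕ)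
    (hA : A ⊆ range (D.d + 2))
    (h : ∀ b ∈ A, ∃ n, D.X.P.ty n = Ty.K ∧ D.inC n j ∧
      k.e / (2 * 10 ^ 6) * D.d < D.hx n b) :
    (A.card : ℝ) * (k.e / (2 * 10 ^ 6) * D.d) ≤
      k.M * (5 / 6 * ((D.d : ℝ) ^ (-c') * (D.d : ℝ) ^ 2)) := by
  set B : Finset (Fin N) := univ.filter (fun n => D.inC n j) with hBd
  have hBc : (B.card : ℝ) ≤ k.M := by
    refine Nat.cast_le.2 (le_trans (card_le_card ?_) (H.pc.npc j))
    intro n hn
    rw [hBd, mem_filter] at hn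
    obtain ⟨v, hv, hvj⟩ := hn.2
    simp only [pV, mem_filter, mem_univ, true_and] at hv
    rw [mem_filter]
    exact ⟨mem_univ _, v, hv.1, hv.2, hvj⟩
  have h1 : (A.card : ℝ) * (k.e / (2 * 10 ^ 6) * D.d) ≤ ∑ b ∈ A, ∑ n ∈ B, D.hx n b := by
    rw [← nsmul_eq_mul, ← sum_const]
    refine sum_le_sum fun b hb => ?_
    obtain ⟨n, _, h2, h3⟩ := h b hb
    have h4 : n ∈ B := by
      rw [hBd, mem_filter]
      exact ⟨mem_univ _, h2⟩
    refine h3.le.trans ?_
    exact single_le_sum (f := fun n => D.hx n b) (fun m _ => hx_nonneg D m b) h4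
  have h2 : ∑ b ∈ A, ∑ n ∈ B, D.hx n b ≤ ∑ b ∈ range (D.d + 2), ∑ n ∈ B, D.hx n b :=
    sum_le_sum_of_subset_of_nonneg hA
      (fun b _ _ => sum_nonneg fun n _ => hx_nonneg D n b)
  have h3 : ∑ b ∈ range (D.d + 2), ∑ n ∈ B, D.hx n b ≤
      ∑ _n ∈ B, 5 / 6 * ((D.d : ℝ) ^ (-c') * (D.d : ℝ) ^ 2) := by
    rw [sum_comm]
    exact sum_le_sum fun n _ => hrd_hx H n
  have h4 : ∑ _n ∈ B, 5 / 6 * ((D.d : ℝ) ^ (-c') * (D.d : ℝ) ^ 2) ≤
      k.M * (5 / 6 * ((D.d : ℝ) ^ (-c') * (D.d : ℝ) ^ 2)) := by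
    rw [sum_const, nsmul_eq_mul]
    refine mul_le_mul_of_nonneg_right hBc ?_
    positivity
  linarith

end hrd

/-- **HRD** -/
theorem stmt_HRD : Stmt_HRD.{u} := by
  intro k hk
  refine ⟨⟨fun _ => 1, fun _ _ => 1, fun _ _ _ => 1, fun _ _ _ _ => 1, fun _ _ _ _ _ => 1⟩,
    ⟨fun _ _ => one_pos, fun _ _ _ _ => one_pos, fun _ _ _ _ _ _ => one_pos,
      fun _ _ _ _ _ _ _ _ => one_pos, fun _ _ _ _ _ _ _ _ _ _ => one_pos⟩, ?_⟩
  intro J S c' _ hc _
  have he : 0 < k.e := by linarith [hk.τ0, hk.τe]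
  have hη := hk.η0
  -- the factor `d ^ (- c')` is small
  have hε : 0 < k.η' * k.e / (4 * 10 ^ 6 * ((k.M : ℝ) + 1)) := by positivity
  have hlim : Filter.Tendsto (fun d : ℕ => (d : ℝ) ^ (-c')) Filter.atTop (nhds 0) :=
    (tendsto_rpow_neg_atTop hc).comp tendsto_natCast_atTop_atTop
  have hev := (hlim.eventually (gt_mem_nhds hε)).and (Filter.eventually_ge_atTop 1)
  obtain ⟨d0, hd0⟩ := Filter.eventually_atTop.1 hev
  refine ⟨d0, ?_⟩
  intro V _ N D hd _ H j
  obtain ⟨ha, hd1⟩ := hd0 D.d hd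
  have hdp : (0 : ℝ) < D.d := by exact_mod_cast hd1
  set A := (range (D.d + 2)).filter (fun b =>
    ∃ n β, D.X.P.ty n = Ty.B ∧ D.inC n j ∧ D.X1 < D.nd n β b) with hA
  set B := (range (D.d + 2)).filter (fun b =>
    ∃ n, D.X.P.ty n = Ty.K ∧ D.inC n j ∧ k.e / (2 * 10 ^ 6) * D.d < D.hx n b) with hB
  have hU : D.Hd k.e j ⊆ A ∪ B := by
    intro b hb
    rw [OD.Hd, mem_filter] at hb
    rw [mem_union, hA, hB, mem_filter, mem_filter]
    rcases hb.2 with h | h
    · exact Or.inl ⟨hb.1, h⟩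
    · exact Or.inr ⟨hb.1, h⟩
  have hc1 : ((D.Hd k.e j).card : ℝ) ≤ (A.card : ℝ) + B.card := by
    have h := (card_le_card hU).trans (card_union_le A B)
    exact_mod_cast h
  have hA1 := hrd_A H j A (filter_subset _ _) (fun b hb => (mem_filter.1 hb).2)
  have hB1 := hrd_B H j B (filter_subset _ _) (fun b hb => (mem_filter.1 hb).2)
  -- first kind
  have hA2 : (A.card : ℝ) ≤ k.η' / 2 * D.d := by
    rw [H.X1] at hA1
    have hC : 1 ≤ k.C := hk.C1
    have hX : 0 < (k.X1 : ℝ) := by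
      have := hk.XC
      have h0 : (0 : ℝ) < 1000 * (k.C + 5) := by positivity
      linarith
    have h1 := hk.Xη
    by_contra hcon
    rw [not_le] at hcon
    have h2 : k.η' / 2 * D.d * k.X1 < (A.card : ℝ) * k.X1 := mul_lt_mul_of_pos_right hcon hX
    have h3 : 2 * k.C * D.d ≤ k.η' * k.X1 * D.d := mul_le_mul_of_nonneg_right h1 hdp.le
    have h4 : 0 < k.C * D.d := by positivity
    nlinarith
  -- second kind
  have hB2 : (B.card : ℝ) ≤ k.η' / 2 * D.d := by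
    have hM : (0 : ℝ) ≤ k.M := Nat.cast_nonneg _
    have h1 : (D.d : ℝ) ^ (-c') * (4 * 10 ^ 6 * ((k.M : ℝ) + 1)) < k.η' * k.e := by
      rw [lt_div_iff₀ (by positivity)] at ha
      exact ha
    have ha0 : 0 ≤ (D.d : ℝ) ^ (-c') := by positivity
    by_contra hcon
    rw [not_le] at hcon
    have h2 : k.η' / 2 * D.d * (k.e / (2 * 10 ^ 6) * D.d) <
        (B.card : ℝ) * (k.e / (2 * 10 ^ 6) * D.d) :=
      mul_lt_mul_of_pos_right hcon (by positivity)
    have h3 : k.η' / 2 * D.d * (k.e / (2 * 10 ^ 6) * D.d) =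
        k.η' * k.e / (4 * 10 ^ 6) * (D.d : ℝ) ^ 2 := by ring
    have h4 : (k.M : ℝ) * (5 / 6 * ((D.d : ℝ) ^ (-c') * (D.d : ℝ) ^ 2)) ≤
        (D.d : ℝ) ^ (-c') * ((k.M : ℝ) + 1) * (D.d : ℝ) ^ 2 := by
      have h5 : 0 ≤ (D.d : ℝ) ^ (-c') * (D.d : ℝ) ^ 2 := by positivity
      nlinarith
    have h6 : (D.d : ℝ) ^ (-c') * ((k.M : ℝ) + 1) * (D.d : ℝ) ^ 2 ≤
        k.η' * k.e / (4 * 10 ^ 6) * (D.d : ℝ) ^ 2 := by
      refine mul_le_mul_of_nonneg_right ?_ (by positivity)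
      rw [le_div_iff₀ (by positivity)]
      linarith
    linarith
  linarith

end Pool.Agent.Work.MP_db9399_oc
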